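import Pool.Agent.H58.FL.Targets

/-!
MP_6a7a6f_gt, board flb_modules, row TCD.
-/

open Topology

namespace Pool.Agent.H97.FL

open Pool.Agent.H58.FL Pool.Agent.H59 Pool.Agent.H48.FR

noncomputable section

/-- the homomorphism given by `pp` -/
def PP' (n : ℕ) : Equiv.Perm (Fin n) →* Equiv.Perm (Fin (2 * n)) where
  toFun := pp
  map_one' := by
    apply Equiv.ext
    intro i
    change finProdFinEquiv (finProdFinEquiv.symm i) = i
    exact Equiv.apply_symm_apply _ _
  map_mul' r s := by
    apply Equiv.ext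
    intro i
    change finProdFinEquiv (Prod.map _ _ (finProdFinEquiv.symm i)) =
      finProdFinEquiv (Prod.map _ _ (finProdFinEquiv.symm (finProdFinEquiv
        (Prod.map _ _ (finProdFinEquiv.symm i)))))
    rw [Equiv.symm_apply_apply]
    rfl

theorem pp_inj {n : ℕ} (r : Equiv.Perm (Fin n)) (h : pp r = 1) : r = 1 := by
  ext i
  have h1 := congrArg (fun e : Equiv.Perm (Fin (2 * n)) => e (pr i 0)) h
  simp only [pp, pr, Equiv.trans_apply, Equiv.symm_apply_apply, Equiv.prodCongr_apply,
    Equiv.Perm.coe_one, id_eq, EmbeddingLike.apply_eq_iff_eq, Prod.map_apply] at h1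
  have h2 := congrArg Prod.snd h1
  simp only at h2
  rw [h2]; rfl

theorem sign_pp {n : ℕ} (r : Equiv.Perm (Fin n)) : Equiv.Perm.sign (pp r) = 1 := by
  have h1 : pp r = finProdFinEquiv.permCongr (Equiv.prodCongrRight (fun _ : Fin 2 => r)) := by
    apply Equiv.ext
    intro i
    rfl
  rw [h1, Equiv.Perm.sign_permCongr, Equiv.Perm.sign_prodCongrRight]
  simp [Fin.prod_univ_two]

/-- the action on the pairs of cells and permutations -/
@[reducible] def act (n N : ℕ) : MulAction (Equiv.Perm (Fin n))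
    ((Fin (2 * n) → Fin N) × Equiv.Perm (Fin (2 * n))) where
  smul r p := (fun i => p.1 ((PP' n r)⁻¹ i), PP' n r * p.2)
  one_smul p := by
    apply Prod.ext
    · change (fun i => p.1 ((PP' n 1)⁻¹ i)) = p.1
      simp
    · change PP' n 1 * p.2 = p.2
      simp
  mul_smul r s p := by
    apply Prod.ext
    · change (fun i => p.1 ((PP' n (r * s))⁻¹ i)) = fun i => p.1 ((PP' n s)⁻¹ ((PP' n r)⁻¹ i))
      simp [map_mul]
    · change PP' n (r * s) * p.2 = PP' n r * (PP' n s * p.2)
      simp [map_mul, mul_assoc]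

theorem sx_act {n N : ℕ} (r : Equiv.Perm (Fin n)) (x : Fin (2 * n) → Fin N)
    (π : Equiv.Perm (Fin (2 * n))) (q : Dl (2 * n + 1)) :
    sx (fun i => x ((PP' n r)⁻¹ i)) (PP' n r * π) q = fun i => sx x π q (pp r⁻¹ i) := by
  funext i
  have h1 : ∀ t, fv (fun i => x ((PP' n r)⁻¹ i)) (PP' n r * π) t i = fv x π t (pp r⁻¹ i) := by
    intro t
    have h2 : (PP' n r)⁻¹ i = pp r⁻¹ i := by
      rw [← map_inv]; rfl
    have h3 : (PP' n r * π).symm i = π.symm (pp r⁻¹ i) := by
      rw [← h2]
      rfl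
    simp only [fv, h2, h3]
  change ∑ t, q t * fv _ _ t i = ∑ t, q t * fv x π t (pp r⁻¹ i)
  simp only [h1]

theorem pf_TCD (hFRE : T_FRE) : T_TCD := by
  classical
  intro Y _ n N H hH
  letI := act n N
  obtain ⟨a, ha⟩ := hFRE (Equiv.Perm (Fin n)) ((Fin (2 * n) → Fin N) × Equiv.Perm (Fin (2 * n)))
    (Ch ℤ (2 * n + 1) Y)
    (fun p => Finsupp.single (H.comp (sx p.1 p.2)) ((Equiv.Perm.sign p.2 : ℤˣ) : ℤ))
    (by
      intro r p h
      have h1 : PP' n r * p.2 = p.2 := congrArg Prod.snd h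
      have h2 : PP' n r = 1 := by
        simpa using h1
      exact pp_inj r h2)
    (by
      intro r p
      change Finsupp.single (H.comp (sx (fun i => p.1 ((PP' n r)⁻¹ i)) (PP' n r * p.2))) _ = _
      have h1 : H.comp (sx (fun i => p.1 ((PP' n r)⁻¹ i)) (PP' n r * p.2)) =
          H.comp (sx p.1 p.2) := by
        apply ContinuousMap.ext
        intro q
        change H (sx _ _ q) = H (sx _ _ q)
        rw [sx_act]
        exact hH r⁻¹ _
      have h2 : Equiv.Perm.sign (PP' n r * p.2) = Equiv.Perm.sign p.2 := by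
        rw [Equiv.Perm.sign_mul]
        change Equiv.Perm.sign (pp r) * _ = _
        rw [sign_pp, one_mul]
      rw [h1]
      congr 2)
  refine ⟨a, ?_⟩
  rw [ZZ, ← Finset.sum_product', Finset.univ_product_univ]
  rw [ha, Fintype.card_perm, Fintype.card_fin, natCast_zsmul]

end

end Pool.Agent.H97.FL
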