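import Pool.Agent.H58.FL.Targets

/-!
MP_6a7a6f_gt, board flb_modules, row TCC.
-/

open Topology

namespace Pool.Agent.H97.FL

open Pool.Agent.H58.FL Pool.Agent.H59 Pool.Agent.H48.FR

noncomputable section

theorem pf_TCC (hTCI : T_TCI) (hTCO : T_TCO) : T_TCC := by
  classical
  intro Y _ d N H hd hH
  have h1 : bd ℤ d Y (ZZ d N H) = ∑ i : Fin (d + 1), (-1 : ℤ) ^ (i : ℕ) •
      ∑ x : Fin d → Fin N, ∑ π : Equiv.Perm (Fin d),
        (Finsupp.single (fc (H.comp (sx x π)) i) ((Equiv.Perm.sign π : ℤˣ) : ℤ) : Ch ℤ d Y) := by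
    have h5 : bd ℤ d Y (ZZ d N H) = ∑ x : Fin d → Fin N, ∑ π : Equiv.Perm (Fin d),
        ∑ i : Fin (d + 1), (-1 : ℤ) ^ (i : ℕ) •
        (Finsupp.single (fc (H.comp (sx x π)) i) ((Equiv.Perm.sign π : ℤˣ) : ℤ) : Ch ℤ d Y) := by
      simp only [ZZ, map_sum, bd_single]
      refine Finset.sum_congr rfl fun x _ => Finset.sum_congr rfl fun π _ => ?_
      rw [Finset.smul_sum]
      refine Finset.sum_congr rfl fun i _ => ?_
      rw [smul_smul, mul_comm, ← smul_smul, Finsupp.smul_single, smul_eq_mul, mul_one]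
    rw [h5]
    have h6 : ∀ x : Fin d → Fin N, ∑ π : Equiv.Perm (Fin d), ∑ i : Fin (d + 1),
        (-1 : ℤ) ^ (i : ℕ) •
        (Finsupp.single (fc (H.comp (sx x π)) i) ((Equiv.Perm.sign π : ℤˣ) : ℤ) : Ch ℤ d Y) =
        ∑ i : Fin (d + 1), ∑ π : Equiv.Perm (Fin d), (-1 : ℤ) ^ (i : ℕ) •
        (Finsupp.single (fc (H.comp (sx x π)) i) ((Equiv.Perm.sign π : ℤˣ) : ℤ) : Ch ℤ d Y) :=
      fun x => Finset.sum_comm
    simp only [h6]
    rw [Finset.sum_comm]
    refine Finset.sum_congr rfl fun i _ => ?_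
    rw [Finset.smul_sum]
    refine Finset.sum_congr rfl fun x _ => ?_
    rw [Finset.smul_sum]
  have h2 := hTCO Y d N H hd hH
  simp only [Finset.sum_add_distrib, ← Finset.smul_sum] at h2
  have h3 : ∀ i : Fin (d + 1), i ≠ 0 → i ≠ Fin.last d → (-1 : ℤ) ^ (i : ℕ) •
      ∑ x : Fin d → Fin N, ∑ π : Equiv.Perm (Fin d),
        (Finsupp.single (fc (H.comp (sx x π)) i) ((Equiv.Perm.sign π : ℤˣ) : ℤ) : Ch ℤ d Y) =
      0 := by
    intro i hi hi'
    rw [Finset.sum_eq_zero, smul_zero]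
    intro x _
    refine hTCI Y d N H x i ?_ ?_
    · exact Nat.pos_of_ne_zero fun h => hi (Fin.ext h)
    · have := i.2
      have h4 : (i : ℕ) ≠ d := fun h => hi' (Fin.ext (by simpa using h))
      omega
  rw [h1]
  rw [← Finset.sum_subset (Finset.subset_univ ({0, Fin.last d} : Finset (Fin (d + 1))))]
  · rw [Finset.sum_pair]
    · simpa using h2
    · intro h
      have := congrArg Fin.val h
      simp at this
      omega
  · intro i _ hi
    simp only [Finset.mem_insert, Finset.mem_singleton, not_or] at hi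
    exact h3 i hi.1 hi.2

end

end Pool.Agent.H97.FL
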