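import Pool.Agent.H58.FL.Targets

/-!
MP_6a7a6f_gt, board flb_modules, row TCO.
-/

open Topology

namespace Pool.Agent.H97.FL

open Pool.Agent.H58.FL Pool.Agent.H59 Pool.Agent.H48.FR

noncomputable section

theorem sum_map {m n : ℕ} (f : Fin m → Fin n) (q : Dl m) (g : Fin n → ℝ) :
    ∑ t, (stdSimplex.map f q : Dl n) t * g t = ∑ s, q s * g (f s) := by
  classical
  have h : ∀ t, (stdSimplex.map f q : Dl n) t = ∑ s ∈ Finset.univ.filter (fun s => f s = t), q s := by
    intro t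
    change FunOnFinite.linearMap ℝ ℝ f q t = _
    rw [FunOnFinite.linearMap_apply_apply]
  simp_rw [h, Finset.sum_mul]
  rw [Finset.sum_comm' (t' := Finset.univ) (s' := fun s => {f s})]
  · simp
  · intro x y
    simp [eq_comm]

theorem sx_cf {d N : ℕ} (x : Fin (d + 1) → Fin N)
    (π : Equiv.Perm (Fin (d + 1))) (k : Fin (d + 2)) (q : Dl (d + 1)) (i : Fin (d + 1)) :
    sx x π (cf k q) i = ∑ s, q s * fv x π (k.succAbove s) i := by
  change ∑ t, (stdSimplex.map (Fin.succAbove k) q : Dl (d + 2)) t * fv x π t i = _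
  exact sum_map _ q (fun t => fv x π t i)

theorem q_sum {m : ℕ} (q : Dl m) : ∑ s, q s = 1 := q.2.2

theorem q_nonneg {m : ℕ} (q : Dl m) (s : Fin m) : 0 ≤ q s := q.2.1 s

/-- the rotated permutation -/
def rp' {m : ℕ} (π : Equiv.Perm (Fin (m + 1))) : Equiv.Perm (Fin (m + 1)) := π * finRotate (m + 1)

theorem rp'_symm_zero {m : ℕ} (π : Equiv.Perm (Fin (m + 1))) :
    (rp' π).symm (π 0) = Fin.last m := by
  rw [Equiv.symm_apply_eq]
  simp [rp']

theorem rp'_symm_lt {m : ℕ} (π : Equiv.Perm (Fin (m + 1))) (i : Fin (m + 1)) (hi : i ≠ π 0) :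
    (((rp' π).symm i : Fin (m + 1)) : ℕ) + 1 = ((π.symm i : Fin (m + 1)) : ℕ) := by
  have h1 : π.symm i ≠ 0 := by
    intro h
    apply hi
    rw [← h]; simp
  have h2 : (rp' π).symm i = (finRotate (m + 1)).symm (π.symm i) := by
    rw [Equiv.symm_apply_eq]
    simp [rp']
  rw [h2]
  obtain ⟨j, hj⟩ := Fin.exists_succ_eq.2 h1
  have h3 : (finRotate (m + 1)).symm (π.symm i) = j.castSucc := by
    rw [Equiv.symm_apply_eq, ← hj]
    apply Fin.ext
    rw [finRotate_succ_apply, Fin.val_add_one]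
    have : j.castSucc ≠ Fin.last m := by
      intro h
      exact absurd (congrArg Fin.val h) (by simp; omega)
    simp [this]
  rw [h3, ← hj]
  simp

theorem fv_rot {m M : ℕ} (x x' : Fin (m + 1) → Fin M) (π : Equiv.Perm (Fin (m + 1)))
    (hx : ∀ i, i ≠ π 0 → x' i = x i) (s : Fin (m + 1)) (i : Fin (m + 1)) (hi : i ≠ π 0) :
    fv x π s.succ i = fv x' (rp' π) s.castSucc i := by
  simp only [fv]
  rw [hx i hi]
  have h := rp'_symm_lt π i hi
  have : (((π.symm i : Fin (m + 1)) : ℕ) < ((s.succ : Fin (m + 2)) : ℕ)) ↔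
      (((rp' π).symm i : Fin (m + 1)) : ℕ) < ((s.castSucc : Fin (m + 2)) : ℕ) := by
    simp only [Fin.val_succ, Fin.val_castSucc]
    omega
  simp only [this]

theorem fv_zero {m M : ℕ} (x : Fin (m + 1) → Fin M) (π : Equiv.Perm (Fin (m + 1)))
    (s : Fin (m + 1)) : fv x π s.succ (π 0) = ((x (π 0) : ℕ) : ℝ) + 1 := by
  simp [fv]

theorem fv_last {m M : ℕ} (x : Fin (m + 1) → Fin M) (π : Equiv.Perm (Fin (m + 1)))
    (s : Fin (m + 1)) : fv x (rp' π) s.castSucc (π 0) = ((x (π 0) : ℕ) : ℝ) := by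
  simp only [fv, rp'_symm_zero]
  have : ¬ ((Fin.last m : Fin (m + 1)) : ℕ) < ((s.castSucc : Fin (m + 2)) : ℕ) := by
    simp only [Fin.val_last, Fin.val_castSucc]
    omega
  rw [if_neg this, add_zero]

theorem fv_bd {d N : ℕ} (x : Fin d → Fin N) (π : Equiv.Perm (Fin d)) (t : Fin (d + 1))
    (j : Fin d) : 0 ≤ fv x π t j ∧ fv x π t j ≤ N := by
  have h1 : ((x j : ℕ) : ℝ) + 1 ≤ N := by
    have := (x j).2
    exact_mod_cast this
  have h0 : (0 : ℝ) ≤ ((x j : ℕ) : ℝ) := Nat.cast_nonneg _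
  simp only [fv]
  split_ifs <;> constructor <;> linarith

theorem face_eq {Y : Type} [TopologicalSpace Y] {m M : ℕ} (H : C(Fin (m + 1) → ℝ, Y))
    (hH : Per (M + 1) H) (x : Fin (m + 1) → Fin (M + 1)) (π : Equiv.Perm (Fin (m + 1))) :
    fc (H.comp (sx x π)) 0 =
      fc (H.comp (sx (x + Pi.single (π 0) 1) (rp' π))) (Fin.last (m + 1)) := by
  classical
  apply ContinuousMap.ext
  intro q
  change H (sx x π (cf 0 q)) = H (sx (x + Pi.single (π 0) 1) (rp' π) (cf (Fin.last (m + 1)) q))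
  set x' := x + Pi.single (π 0) 1 with hx'
  have hxi : ∀ i, i ≠ π 0 → x' i = x i := by
    intro i hi
    simp [hx', Pi.single_eq_of_ne hi]
  have hx0 : x' (π 0) = x (π 0) + 1 := by simp [hx']
  have hne : ∀ i, i ≠ π 0 → sx x π (cf 0 q) i = sx x' (rp' π) (cf (Fin.last (m + 1)) q) i := by
    intro i hi
    rw [sx_cf, sx_cf]
    refine Finset.sum_congr rfl fun s _ => ?_
    rw [Fin.succAbove_zero, Fin.succAbove_last, fv_rot x x' π hxi s i hi]
  have hA : sx x π (cf 0 q) (π 0) = ((x (π 0) : ℕ) : ℝ) + 1 := by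
    rw [sx_cf]
    simp only [Fin.succAbove_zero, fv_zero]
    rw [← Finset.sum_mul, q_sum, one_mul]
  have hB : sx x' (rp' π) (cf (Fin.last (m + 1)) q) (π 0) = ((x' (π 0) : ℕ) : ℝ) := by
    rw [sx_cf]
    simp only [Fin.succAbove_last, fv_last]
    rw [← Finset.sum_mul, q_sum, one_mul]
  by_cases hw : x (π 0) = Fin.last M
  · have h0 : ((x' (π 0) : Fin (M + 1)) : ℕ) = 0 := by
      rw [hx0, hw]; simp
    have hA' : sx x π (cf 0 q) (π 0) = ((M + 1 : ℕ) : ℝ) := by
      rw [hA, hw]; simp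
    have hB' : sx x' (rp' π) (cf (Fin.last (m + 1)) q) (π 0) = 0 := by
      rw [hB, h0]; simp
    have he : sx x π (cf 0 q) =
        Function.update (sx x' (rp' π) (cf (Fin.last (m + 1)) q)) (π 0) ((M + 1 : ℕ) : ℝ) := by
      funext i
      by_cases hi : i = π 0
      · subst hi
        simp only [Function.update_self]
        exact hA'
      · rw [Function.update_of_ne hi]
        exact hne i hi
    rw [he]
    refine hH _ ?_ _ hB'
    intro j
    rw [sx_cf]
    constructor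
    · exact Finset.sum_nonneg fun s _ => mul_nonneg (q_nonneg q s) (fv_bd _ _ _ _).1
    · calc ∑ s, q s * fv x' (rp' π) ((Fin.last (m + 1)).succAbove s) j
          ≤ ∑ s, q s * ((M + 1 : ℕ) : ℝ) :=
            Finset.sum_le_sum fun s _ => mul_le_mul_of_nonneg_left (fv_bd _ _ _ _).2 (q_nonneg q s)
        _ = ((M + 1 : ℕ) : ℝ) := by rw [← Finset.sum_mul, q_sum, one_mul]
  · have he : sx x π (cf 0 q) = sx x' (rp' π) (cf (Fin.last (m + 1)) q) := by
      funext i
      by_cases hi : i = π 0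
      · subst hi
        rw [hA, hB, hx0, Fin.val_add_one, if_neg hw]
        push_cast
        ring
      · exact hne i hi
    rw [he]

theorem pf_TCO : T_TCO := by
  classical
  intro Y _ d N H hd hH
  obtain ⟨m, rfl⟩ : ∃ m, d = m + 1 := ⟨d - 1, by omega⟩
  rcases N with _ | M
  · rw [Finset.univ_eq_empty, Finset.sum_empty]
  have h1 : ∑ x : Fin (m + 1) → Fin (M + 1), ∑ π : Equiv.Perm (Fin (m + 1)),
      (Finsupp.single (fc (H.comp (sx x π)) (Fin.last (m + 1))) ((Equiv.Perm.sign π : ℤˣ) : ℤ) :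
        Ch ℤ (m + 1) Y) =
      (-1 : ℤ) ^ m • ∑ x : Fin (m + 1) → Fin (M + 1), ∑ π : Equiv.Perm (Fin (m + 1)),
      (Finsupp.single (fc (H.comp (sx x π)) 0) ((Equiv.Perm.sign π : ℤˣ) : ℤ) :
        Ch ℤ (m + 1) Y) := by
    rw [Finset.sum_comm]
    rw [← Equiv.sum_comp (Equiv.mulRight (finRotate (m + 1)))]
    rw [Finset.sum_comm (s := (Finset.univ : Finset (Fin (m + 1) → Fin (M + 1)))), Finset.smul_sum]
    refine Finset.sum_congr rfl fun π _ => ?_
    rw [← Equiv.sum_comp (Equiv.addRight (Pi.single (π 0) 1 : Fin (m + 1) → Fin (M + 1))),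
      Finset.smul_sum]
    refine Finset.sum_congr rfl fun x _ => ?_
    rw [face_eq H hH x π, Finsupp.smul_single]
    have hs : ((Equiv.Perm.sign (rp' π) : ℤˣ) : ℤ) =
        (-1 : ℤ) ^ m • ((Equiv.Perm.sign π : ℤˣ) : ℤ) := by
      rw [rp', Equiv.Perm.sign_mul, sign_finRotate]
      push_cast
      rw [smul_eq_mul, mul_comm]
    rw [← hs]
    rfl
  simp only [Finset.sum_add_distrib, ← Finset.smul_sum]
  rw [h1, smul_smul, ← pow_add, show m + 1 + m = 2 * m + 1 by ring, pow_succ, pow_mul]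
  simp

end

end Pool.Agent.H97.FL
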